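import Mathlib.Combinatorics.SimpleGraph.Metric
import Mathlib.Data.Fintype.Lattice

/-!
# Graphs all of whose total dominating sets are ODPU-sets

The finite connected graphs in which every total dominating set is an open distance pattern uniform
set are exactly the complete graphs.  If `r ≥ 2` is the eccentricity of `u`, then the ball
`{x | d(u,x) < r}` is a total dominating set, but the distance `r` occurs in the pattern of a vertex
at distance `r` from `u` and not in the pattern of `u`.
-/

set_option autoImplicit false

namespace Pool.Agent.Results.MP_10a600_co.CompleteGraphs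

/-- The open `M`-distance pattern of `u`: the set of the distances `d(u,v)`, `v ∈ M`, `v ≠ u`. -/
def pattern {V : Type} (G : SimpleGraph V) (M : Set V) (u : V) : Set ℕ :=
  {k | ∃ v ∈ M, v ≠ u ∧ G.dist u v = k}

/-- `M` is an open distance pattern uniform set of `G`: it is nonempty and the open `M`-distance
pattern is the same for all vertices. -/
def IsODPU {V : Type} (G : SimpleGraph V) (M : Set V) : Prop :=
  M.Nonempty ∧ ∀ u v : V, pattern G M u = pattern G M v

/-- `S` is a total dominating set of `G`: every vertex has a neighbour in `S`. -/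
def IsTotalDominating {V : Type} (G : SimpleGraph V) (S : Set V) : Prop :=
  ∀ v : V, ∃ w ∈ S, G.Adj v w

/-- In a connected graph a vertex `x ≠ u` has a neighbour that is closer to `u`. -/
theorem exists_closer {V : Type} (G : SimpleGraph V) (hG : G.Connected) (u x : V) (hx : x ≠ u) :
    ∃ y, G.Adj x y ∧ G.dist u y < G.dist u x := by
  obtain ⟨p, hp⟩ := hG.exists_walk_length_eq_dist x u
  cases p with
  | nil => exact absurd rfl hx
  | cons h q =>
    rename_i y
    refine ⟨y, h, ?_⟩
    have h1 : G.dist y u ≤ q.length := SimpleGraph.dist_le q
    rw [SimpleGraph.Walk.length_cons] at hp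
    rw [SimpleGraph.dist_comm (u := u) (v := y), SimpleGraph.dist_comm (u := u) (v := x)]
    omega

/-- A finite connected graph `G` has the property that every total dominating set of `G` is an
ODPU-set of `G` if and only if `G` is complete. -/
theorem result (V : Type) [Finite V] (G : SimpleGraph V) (hG : G.Connected) :
    (∀ S : Set V, IsTotalDominating G S → IsODPU G S) ↔ ∀ u v : V, u ≠ v → G.Adj u v := by
  constructor
  · intro h u v huv
    by_contra hadj
    have : Nonempty V := ⟨u⟩
    obtain ⟨w, hw⟩ := Finite.exists_max (fun x => G.dist u x)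
    have hr : 2 ≤ G.dist u w := by
      have h1 : G.dist u v ≤ G.dist u w := hw v
      have h2 : 0 < G.dist u v := (hG.pos_dist_of_ne huv)
      have h3 : G.dist u v ≠ 1 := fun h => hadj (SimpleGraph.dist_eq_one_iff_adj.1 h)
      omega
    have hS : IsTotalDominating G {x | G.dist u x < G.dist u w} := by
      intro x
      by_cases hx : x = u
      · subst hx
        obtain ⟨y, hy, -⟩ := exists_closer G hG v x huv
        refine ⟨y, ?_, hy⟩
        show G.dist x y < G.dist x w
        rw [SimpleGraph.dist_eq_one_iff_adj.2 hy]
        omega
      · obtain ⟨y, hy, hlt⟩ := exists_closer G hG u x hx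
        exact ⟨y, lt_of_lt_of_le hlt (hw x), hy⟩
    have h2 := (h _ hS).2 w u
    have h3 : G.dist u w ∈ pattern G {x | G.dist u x < G.dist u w} w := by
      refine ⟨u, ?_, ?_, ?_⟩
      · show G.dist u u < G.dist u w
        rw [SimpleGraph.dist_self]
        omega
      · rintro rfl
        rw [SimpleGraph.dist_self] at hr
        omega
      · exact SimpleGraph.dist_comm
    rw [h2] at h3
    obtain ⟨v', hv', -, hd⟩ := h3
    have h4 : G.dist u v' < G.dist u w := hv'
    omega
  · intro hc S hS
    have hpat : ∀ u : V, pattern G S u = {1} := by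
      intro u
      ext k
      constructor
      · rintro ⟨v, _, hne, rfl⟩
        exact SimpleGraph.dist_eq_one_iff_adj.2 (hc u v (Ne.symm hne))
      · rintro rfl
        obtain ⟨w, hw, hadj⟩ := hS u
        exact ⟨w, hw, hadj.ne', SimpleGraph.dist_eq_one_iff_adj.2 hadj⟩
    obtain ⟨u⟩ := hG.nonempty
    obtain ⟨w, hw, -⟩ := hS u
    exact ⟨⟨w, hw⟩, fun a b => by rw [hpat a, hpat b]⟩

end Pool.Agent.Results.MP_10a600_co.CompleteGraphs
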